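import Mathlib
import Pool.Agent.H627.LP.Fin

/-!
# The dynamical Lehmer inequality for abelian points

Let `K` be a number field and `f` an endomorphism of `P^N` over `K`, of degree `p ^ r` with `p` a
prime number, given by `N + 1` forms. Assume that over some finite extension `K'` of `K`, in some
coordinates, `f` has good and purely inseparable reduction at a finite place `v` of `K'` above `p`.
Then the Lehmer inequality `ĥ(P) ≥ 1 / (C * [L : K])` holds for all wandering points `P` of
`P^N(L)`, for all abelian extensions `L` of `K`, with a constant which does not depend on `L`;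
more generally it holds for all Galois extensions `L` of `K` such that, for a fixed `m`, the
elements `σ ^ m` of the Galois group have a bounded number of conjugates. The degree in the
inequality can be replaced by a bound for the ramification indices of `L` over `K` at the primes
above the restriction of `v` to `K`.
-/

set_option autoImplicit false

namespace Pool.Agent.Results.MP_2194ec_nt.AbelianPoints

open MvPolynomial NumberField Module Filter Topology

/-- A tuple `G` of `N + 1` forms of degree `q` over the number field `k` has *good, purely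
inseparable reduction* at the finite place `v`: all coefficients are `v`-integral, those of the
monomials which are not of the form `X_j ^ q` are in the maximal ideal, and the determinant of the
coefficients of the `X_j ^ q` is a unit at `v`. -/
def GoodInseparable {k : Type} [Field k] [NumberField k] {N : ℕ} (v : FinitePlace k) (q : ℕ)
    (G : Fin (N + 1) → MvPolynomial (Fin (N + 1)) k) : Prop :=
  (∀ i m, v ((G i).coeff m) ≤ 1) ∧
  (∀ i m, (∀ j, m ≠ Finsupp.single j q) → v ((G i).coeff m) < 1) ∧
  v (Matrix.det (Matrix.of fun i j => (G i).coeff (Finsupp.single j q))) = 1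

/-- the map defined by a tuple of forms, on coordinate vectors over an extension -/
noncomputable def evalMap {K L : Type} [Field K] [Field L] [Algebra K L] {N : ℕ}
    (F : Fin (N + 1) → MvPolynomial (Fin (N + 1)) K) (y : Fin (N + 1) → L) : Fin (N + 1) → L :=
  fun i => aeval y (F i)

/-- the point with coordinate vector `x` is wandering: its iterates are pairwise distinct points
of the projective space -/
def Wandering {K L : Type} [Field K] [Field L] [Algebra K L] {N : ℕ}
    (F : Fin (N + 1) → MvPolynomial (Fin (N + 1)) K) (x : Fin (N + 1) → L) : Prop :=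
  ¬ ∃ m n : ℕ, m ≠ n ∧ ∃ c : L, c ≠ 0 ∧ (evalMap F)^[n] x = c • (evalMap F)^[m] x

/-- `h` is the canonical height of the point with coordinate vector `x` over the number field `L`:
the limit of `h(F^n(x)) / q ^ n`, where `h` is the absolute logarithmic Weil height, that is
Mathlib's (relative) `Height.logHeight` divided by `[L : ℚ]` -/
def IsCanonicalHeight {K L : Type} [Field K] [Field L] [NumberField L] [Algebra K L] {N : ℕ}
    (F : Fin (N + 1) → MvPolynomial (Fin (N + 1)) K) (q : ℕ) (x : Fin (N + 1) → L) (h : ℝ) :
    Prop :=
  Tendsto (fun n : ℕ => Height.logHeight ((evalMap F)^[n] x) /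
    ((finrank ℚ L : ℝ) * (q : ℝ) ^ n)) atTop (𝓝 h)

/-- **Main result.** -/
theorem result (K K' : Type) [Field K] [NumberField K] [Field K'] [NumberField K']
    [Algebra K K'] (N p r : ℕ) (hp : p.Prime) (hr : 1 ≤ r)
    -- the map over `K`
    (F : Fin (N + 1) → MvPolynomial (Fin (N + 1)) K) (_hF : ∀ i, (F i).IsHomogeneous (p ^ r))
    -- a linear change of coordinates over `K'` and the forms in the new coordinates
    (A : Matrix (Fin (N + 1)) (Fin (N + 1)) K') (hA : A.det ≠ 0)
    (G : Fin (N + 1) → MvPolynomial (Fin (N + 1)) K') (hG : ∀ i, (G i).IsHomogeneous (p ^ r))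
    (hconj : ∀ i, ∑ j, C (A i j) * map (algebraMap K K') (F j) =
      bind₁ (fun l => ∑ j, C (A l j) * X j) (G i))
    (v : FinitePlace K') (hv : v (p : K') < 1) (hred : GoodInseparable v (p ^ r) G)
    -- `m = B = 1` is the case of abelian extensions
    (m : ℕ) (hm : 1 ≤ m) (B : ℕ) :
    ∃ C : ℝ, 0 < C ∧ ∀ (L : Type) [Field L] [NumberField L] [Algebra K L] [IsGalois K L],
      (∀ σ : Gal(L/K), (Set.range fun g : Gal(L/K) => g * σ ^ m * g⁻¹).ncard ≤ B) →
      ∀ x : Fin (N + 1) → L, x ≠ 0 → Wandering F x →
      ∃ h : ℝ, IsCanonicalHeight F (p ^ r) x h ∧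
        1 / (C * finrank K L) ≤ h ∧
        ∀ e : ℕ, (∀ 𝔓 : Ideal (𝓞 L), 𝔓.IsPrime →
          𝔓.under (𝓞 K) = v.maximalIdeal.asIdeal.under (𝓞 K) →
          𝔓.ramificationIdx (𝓞 K) ≤ e) → 1 / (C * e) ≤ h := by
  obtain ⟨h1, h2, h3⟩ := hred
  obtain ⟨C, hC, h4, _⟩ := H627.LP.final hp hr F A hA G hG hconj v hv ⟨h1, h2, h3⟩ hm B
  exact ⟨C, hC, h4⟩

end Pool.Agent.Results.MP_2194ec_nt.AbelianPoints
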