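import Pool.Agent.TH377.Dyn.Lehmer
import Pool.Agent.TH377.Dyn.Box

/-!
# MP_2194ec_nt: the dynamical Lehmer inequality for 100% of the polynomials

Let `K` be a number field and `d ≥ 2`.  A polynomial of degree `d` over `K` can be written as

  `φ = (c₀ + c₁ x + … + c_d x^d) / b`,  `b, c₀, …, c_d ∈ O_K`.

Let `C > 0` be any constant.  We prove that for 100% of the vectors `(b, c₀, …, c_d)` the following
holds for all finite extensions `L` of `K` whose degree is not divisible by `d` and for all `x ∈ L`:

  `ĥ_φ(x) ≥ C / [L : K]`, and even `ĥ_φ(x) ≥ C` if `L` is a Galois extension of `K`.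

So for 100% of the polynomials the conjecture (with the same constant for all of them, as large as one
likes) holds for all points `x` whose degree over `K` is not divisible by `d`; all these points are
wandering, and if they lie in a Galois extension of degree not divisible by `d`, their canonical
heights are bounded below by a constant.  The exceptional vectors have density zero in boxes (with
respect to any integral basis), and in a stronger sense: for every `ε > 0` there is an ideal `I ≠ 0`
such that they lie in at most `ε #(O_K/I)^(d+2)` residue classes modulo `I`.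

Proof.  Let `v` be a prime of `K` that divides `b`, such that `F = c₀ + … + c_d x^d` is irreducible of
degree `d` modulo `v`.  Let `w` be a place of `L` above `v` with the ramification index `e` and the
residue degree `f`.  If `f` is not divisible by `d`, then `F` has no root in the residue field of `w`,
and either `x` is not integral at `w` or `F(x)` is a unit at `w`.  As `b` is not a unit, the orbit of
`x` under `φ = F/b` tends to `∞` in `L_w`, and `log |φⁿ(x)|_w ≥ e f d^(n-1) log N v` for all `n ≥ 1`.
By `∑ e f = [L : K]` such places `w` exist if `d` does not divide `[L : K]`, and so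
`ĥ_φ(x) ≥ log N v / (d [L : ℚ])`; if `L` is a Galois extension of `K`, then all places above `v` have
this property, and `ĥ_φ(x) ≥ log N v / (d [K : ℚ])`.  Almost all vectors have such a prime `v` of norm
greater than any given bound, because the conditions hold for a proportion of at least
`(1/4d) (1/N v - 1/(N v)²)` of all vectors modulo `v²`, and the sum of the `1/N v` diverges.
-/

set_option autoImplicit false
set_option maxHeartbeats 400000

open Polynomial NumberField Module Filter Topology

namespace Pool.Agent.Results.MP_2194ec_nt.PolynomialLehmer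

/-- The polynomial `(c₁ + c₂ x + … + c_{d+1} x^d) / c₀` over `K`, for a vector `(c₀, …, c_{d+1})` of
integers of `K`. -/
noncomputable def poly {K : Type} [Field K] {d : ℕ} (c : Fin (d + 2) → 𝓞 K) : K[X] :=
  C ((c 0 : K)⁻¹) * ∑ i : Fin (d + 1), C (c i.succ : K) * X ^ (i : ℕ)

/-- The real number `h` is the canonical height of the element `x` of the number field `L` for the
polynomial `φ` over the subfield `K` of `L`: the limit of `h(φⁿ(x)) / dⁿ`, where `d` is the degree of
`φ` and `h(y)` is the absolute logarithmic Weil height of `y`, that is, Mathlib's (relative)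
`Height.logHeight₁ y` divided by `[L : ℚ]`. -/
def IsCanonicalHeight {K L : Type} [Field K] [Field L] [NumberField L] [Algebra K L] (φ : K[X])
    (x : L) (h : ℝ) : Prop :=
  Tendsto (fun n : ℕ => Height.logHeight₁ ((fun y => aeval y φ)^[n] x) /
    ((finrank ℚ L : ℝ) * (φ.natDegree : ℝ) ^ n)) atTop (𝓝 h)

/-- The vectors `c = (b, c₀, …, c_d)` of integers of `K` that do not have the following property:
`b ≠ 0`, the polynomial `φ = (c₀ + … + c_d x^d) / b` has degree `d`, and for every number field `L`
that contains `K` and whose degree over `K` is not divisible by `d`, the canonical height of every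
`x ∈ L` exists and is at least `B / [L : K]`, and at least `B` if `L` is Galois over `K`. -/
def Exceptional (K : Type) [Field K] (d : ℕ) (B : ℝ) : Set (Fin (d + 2) → 𝓞 K) :=
  {c | ¬ (c 0 ≠ 0 ∧ (poly c).natDegree = d ∧
    ∀ (L : Type) [Field L] [NumberField L] [Algebra K L] (x : L), ¬ d ∣ finrank K L →
      ∃ h : ℝ, IsCanonicalHeight (poly c) x h ∧ B / finrank K L ≤ h ∧ (IsGalois K L → B ≤ h))}

/-- Density zero: for every `ε > 0` there is an ideal `I ≠ 0` such that `E` lies in at most
`ε #(O_K/I)ᴺ` residue classes modulo `I`. -/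
def DensityZero {K : Type} [Field K] {N : ℕ} (E : Set (Fin N → 𝓞 K)) : Prop :=
  ∀ ε : ℝ, 0 < ε → ∃ I : Ideal (𝓞 K), I ≠ ⊥ ∧
    (Set.ncard ((fun (t : Fin N → 𝓞 K) i => Ideal.Quotient.mk I (t i)) '' E) : ℝ) ≤
      ε * (Nat.card (𝓞 K ⧸ I) : ℝ) ^ N

/-- The vectors all of whose entries have coordinates of absolute value at most `H` in the integral
basis `ω`. -/
def Box {K : Type} [Field K] {J : Type} (ω : Module.Basis J ℤ (𝓞 K)) (N H : ℕ) :
    Set (Fin N → 𝓞 K) :=
  {c | ∀ i j, |ω.repr (c i) j| ≤ (H : ℤ)}

section proof

open IsDedekindDomain Pool.Agent.TH377.Dyn Pool.Agent.TH377.Sup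

lemma poly_natDegree {K : Type} [Field K] [NumberField K] {d : ℕ} (c : Fin (d + 2) → 𝓞 K)
    (h0 : c 0 ≠ 0) (v : HeightOneSpectrum (𝓞 K)) (h : IrrMod v d fun i => c i.succ) :
    (poly c).natDegree = d := by
  have h1 : (∑ i : Fin (d + 1), C (c i.succ : K) * X ^ (i : ℕ) : K[X]) =
      (num c).map (algebraMap (𝓞 K) K) := by
    rw [num, pol_map]
    rfl
  have h2 : ((c 0 : K)⁻¹) ≠ 0 := by
    rw [Ne, inv_eq_zero]
    exact_mod_cast h0
  rw [poly, natDegree_C_mul h2, h1,
    natDegree_map_eq_of_injective (FaithfulSMul.algebraMap_injective (𝓞 K) K)]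
  exact (num_facts c v h).1

end proof

/-- **The dynamical Lehmer inequality for 100% of the polynomials.**  Let `K` be a number field,
`d ≥ 2` and `B > 0`.  For all vectors `(b, c₀, …, c_d)` of integers of `K` outside a set of density
zero, `φ = (c₀ + … + c_d x^d) / b` has degree `d`, and for all number fields `L ⊇ K` with
`d ∤ [L : K]` and all `x ∈ L` the canonical height satisfies `ĥ_φ(x) ≥ B / [L : K]`, and
`ĥ_φ(x) ≥ B` if `L` is Galois over `K`. -/
theorem result (K : Type) [Field K] [NumberField K] (d : ℕ) (hd : 2 ≤ d) (B : ℝ) (hB : 0 < B) :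
    DensityZero (Exceptional K d B) ∧
      ∀ (J : Type) [Fintype J] (ω : Module.Basis J ℤ (𝓞 K)),
        Tendsto (fun H : ℕ => ((Exceptional K d B ∩ Box ω (d + 2) H).ncard : ℝ) /
          ((Box ω (d + 2) H).ncard : ℝ)) atTop (𝓝 0) := by
  have key : Pool.Agent.TH120.Sec.DZ (d + 2) (Exceptional K d B) := by
    set M := ⌈Real.exp (B * d * finrank ℚ K)⌉₊ with hM
    have hM0 : ((M.factorial : ℕ) : 𝓞 K) ≠ 0 := by
      exact_mod_cast M.factorial_ne_zero
    refine Pool.Agent.TH377.Dyn.DZ.mono (Pool.Agent.TH377.Dyn.dz_prime K d hd _ hM0) ?_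
    intro c hc hex
    obtain ⟨v, hDv, h1, h2, h3⟩ := hex
    apply hc
    have h0 : c 0 ≠ 0 := by
      intro h0
      apply h2
      rw [h0]
      exact zero_mem _
    have hdeg := poly_natDegree c h0 v h3
    refine ⟨h0, hdeg, ?_⟩
    intro L _ _ _ x hL
    have hN : B * d * finrank ℚ K ≤ Real.log (Ideal.absNorm v.asIdeal) := by
      have g1 := Pool.Agent.TH377.Dyn.lt_norm v M hDv
      have g2 : Real.exp (B * d * finrank ℚ K) ≤ Ideal.absNorm v.asIdeal :=
        (Nat.le_ceil _).trans (Nat.cast_le.2 g1.le)
      exact (Real.le_log_iff_exp_le ((Real.exp_pos _).trans_le g2)).2 g2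
    have := Pool.Agent.TH377.Dyn.lehmer hd B hB c v h0 h1 h3 hN x hL
    unfold IsCanonicalHeight
    rw [hdeg]
    exact this
  exact ⟨key, fun J _ ω => Pool.Agent.TH377.Dyn.box_tendsto _ key ω⟩

end Pool.Agent.Results.MP_2194ec_nt.PolynomialLehmer
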