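import Pool.Agent.H627.LU.Fn

/-!
# Canonical heights of points of projective space with small local degrees at one good place

Let `K` be a number field, `f : P^N → P^N` (`N ≥ 1`) a morphism of degree `d ≥ 2` over `K`, `v` a
finite place of `K` at which `f` has good reduction, with residue field of `q` elements, and
`ε > 0`. There is an integer `C > 0` such that for all `m`, `B`, `e`, with `R = C * (B * q ^ m) ^ C`,
the following holds. Let `L` be a finite extension of `K` in which a proportion of at least `1 / B`
of the primes above `v`, counted with their local degrees, have residue degree at most `m` and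
ramification index at most `e` over `v`. Let `P` be a point of `P^N(L)` whose field of definition
`K(P)` has degree `D ≥ R * e ^ (N + ε)` over `K`. Then `ĥ(P) ≥ 1 / (R * e)`, a bound which does
not depend on `D`.
-/

set_option autoImplicit false

namespace Pool.Agent.Results.MP_2194ec_nt.UniformGap

open MvPolynomial NumberField Module Filter Topology

/-- A tuple of `N + 1` forms in `N + 1` variables over the number field `K` has *good reduction*
at the finite place `v`: the coefficients are `v`-integral, and for some `n` the powers `X_j ^ n`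
of the variables are combinations of the forms whose coefficients are polynomials with
`v`-integral coefficients (equivalently, the reductions of the forms have no common zero over an
algebraic closure of the residue field, except zero). -/
def GoodReduction {K : Type} [Field K] [NumberField K] {N : ℕ} (v : FinitePlace K)
    (F : Fin (N + 1) → MvPolynomial (Fin (N + 1)) K) : Prop :=
  (∀ i s, v ((F i).coeff s) ≤ 1) ∧
  ∃ (n : ℕ) (U : Fin (N + 1) → Fin (N + 1) → MvPolynomial (Fin (N + 1)) K),
    (∀ j i s, v ((U j i).coeff s) ≤ 1) ∧ ∀ j, X j ^ n = ∑ i, U j i * F i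

/-- the map defined by a tuple of forms over `K`, on coordinate vectors over an extension -/
noncomputable def evalMap {K L : Type} [Field K] [Field L] [Algebra K L] {N : ℕ}
    (F : Fin (N + 1) → MvPolynomial (Fin (N + 1)) K) (y : Fin (N + 1) → L) : Fin (N + 1) → L :=
  fun i => aeval y (F i)

/-- `h` is the canonical height of the point with coordinate vector `x` over the number field `L`:
the limit of `h(F^n(x)) / d ^ n`, where `h` is the absolute logarithmic Weil height, that is
Mathlib's (relative) `Height.logHeight` divided by `[L : ℚ]` -/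
def IsCanonicalHeight {K L : Type} [Field K] [Field L] [NumberField L] [Algebra K L] {N : ℕ}
    (F : Fin (N + 1) → MvPolynomial (Fin (N + 1)) K) (d : ℕ) (x : Fin (N + 1) → L) (h : ℝ) :
    Prop :=
  Tendsto (fun n : ℕ => Height.logHeight ((evalMap F)^[n] x) /
    ((finrank ℚ L : ℝ) * (d : ℝ) ^ n)) atTop (𝓝 h)

/-- the field `K(P)` generated over `K` by the ratios `x_i / x_j` of the coordinates of the point
`P` with coordinate vector `x` -/
def fieldOfDefinition (K : Type) {L : Type} [Field K] [Field L] [Algebra K L] {N : ℕ}
    (x : Fin (N + 1) → L) : IntermediateField K L :=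
  IntermediateField.adjoin K (Set.range fun ij : Fin (N + 1) × Fin (N + 1) => x ij.1 / x ij.2)

/-- **Main result.** -/
theorem result (K : Type) [Field K] [NumberField K] (N d : ℕ) (hN : 1 ≤ N) (hd : 2 ≤ d)
    -- the morphism, with good reduction at `v`
    (F : Fin (N + 1) → MvPolynomial (Fin (N + 1)) K) (hF : ∀ i, (F i).IsHomogeneous d)
    (v : FinitePlace K) (hred : GoodReduction v F) (ε : ℝ) (hε : 0 < ε) :
    ∃ C : ℕ, 0 < C ∧ ∀ m B e R : ℕ, R = C * (B * v.maximalIdeal.asIdeal.absNorm ^ m) ^ C →
      ∀ (L : Type) [Field L] [NumberField L] [Algebra K L]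
      -- primes of `L` above `v`, of residue degrees at most `m` and ramification indices at most
      -- `e`, whose local degrees add up to at least `[L : K] / B`
      (T : Finset (Ideal (𝓞 L))),
      (∀ 𝔓 ∈ T, 𝔓.IsPrime ∧ 𝔓.under (𝓞 K) = v.maximalIdeal.asIdeal ∧
        𝔓.inertiaDeg (𝓞 K) ≤ m ∧ 𝔓.ramificationIdx (𝓞 K) ≤ e) →
      finrank K L ≤ B * ∑ 𝔓 ∈ T, 𝔓.ramificationIdx (𝓞 K) * 𝔓.inertiaDeg (𝓞 K) →
      ∀ x : Fin (N + 1) → L, x ≠ 0 →
      (R : ℝ) * (e : ℝ) ^ ((N : ℝ) + ε) ≤ finrank K (fieldOfDefinition K x) →
      ∃ h : ℝ, IsCanonicalHeight F d x h ∧ 1 / ((R : ℝ) * e) ≤ h :=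
  H627.LU.uniform hd hN F hF v hred hε

end Pool.Agent.Results.MP_2194ec_nt.UniformGap
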